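import Pool.Agent.H69.VR.MLem

/-!
# Counting monadic second-order logic over context-free classes: truth and closure
-/

set_option autoImplicit false

namespace Pool.Agent.H69.VR

open Pool.Agent.H8.VR Classical

/-- a bound for the variables -/
def MS.vb : MS → ℕ
  | .un _ x => x + 1
  | .bi _ x y => max (x + 1) (y + 1)
  | .eq x y => max (x + 1) (y + 1)
  | .mem x Z => max (x + 1) (Z + 1)
  | .mod Z _ _ => Z + 1
  | .neg φ => φ.vb
  | .and φ ψ => max φ.vb ψ.vb
  | .ex x φ => max (x + 1) φ.vb
  | .exS Z φ => max (Z + 1) φ.vb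

/-- the universal closure with respect to the variables below `n` -/
def MS.clo (φ : MS) : ℕ → MS
  | 0 => φ
  | n + 1 => .neg (.ex n (.exS n (.neg (φ.clo n))))

theorem MS.below_clo {m : ℕ} {φ : MS} (h : φ.Below m) : ∀ n, (φ.clo n).Below m
  | 0 => h
  | n + 1 => MS.below_clo h n

section
variable {A Q : Type} {P : ℕ → A → Prop} {R : ℕ → A → A → Prop}

/-- the type determines the truth value -/
theorem sat_iff (c : A → Q) : ∀ (φ : MS) (n : ℕ), φ.vb ≤ n → ∀ (e : ℕ → Option A) (e' : ℕ → A)
    (V V' : ℕ → Set A), (∀ x < n, e x = some (e' x)) → (∀ Z < n, V Z = V' Z) →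
      (φ.Sat P R e' V' ↔ φ.dec (φ.ty P R Set.univ c e V))
  | .un i x, n, hn, e, e', V, V', he, _ => by
      have h : x < n := hn
      show P i (e' x) ↔ ∃ a ∈ Set.univ, e x = some a ∧ P i a
      rw [he x h]
      simp
  | .bi i x y, n, hn, e, e', V, V', he, _ => by
      have hx : x < n := le_of_max_le_left hn
      have hy : y < n := le_of_max_le_right hn
      show R i (e' x) (e' y) ↔ ∃ a ∈ Set.univ, ∃ b ∈ Set.univ, e x = some a ∧ e y = some b ∧ R i a b
      rw [he x hx, he y hy]
      simp
  | .eq x y, n, hn, e, e', V, V', he, _ => by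
      have hx : x < n := le_of_max_le_left hn
      have hy : y < n := le_of_max_le_right hn
      show e' x = e' y ↔ ∃ a ∈ Set.univ, e x = some a ∧ e y = some a
      rw [he x hx, he y hy]
      simp [eq_comm]
  | .mem x Z, n, hn, e, e', V, V', he, hV => by
      have hx : x < n := le_of_max_le_left hn
      have hz : Z < n := le_of_max_le_right hn
      show e' x ∈ V' Z ↔ ∃ a ∈ Set.univ, e x = some a ∧ a ∈ V Z
      rw [he x hx, hV Z hz]
      simp
  | .mod Z q r, n, hn, e, e', V, V', _, hV => by
      have hz : Z < n := hn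
      show (V' Z).ncard ≡ r [MOD q + 1] ↔
        (((Set.univ ∩ V Z).ncard : ℕ) : ZMod (q + 1)) = (r : ZMod (q + 1))
      rw [hV Z hz, Set.univ_inter, ZMod.natCast_eq_natCast_iff]
  | .neg φ, n, hn, e, e', V, V', he, hV => not_congr (sat_iff c φ n hn e e' V V' he hV)
  | .and φ ψ, n, hn, e, e', V, V', he, hV =>
      and_congr (sat_iff c φ n (le_of_max_le_left hn) e e' V V' he hV)
        (sat_iff c ψ n (le_of_max_le_right hn) e e' V V' he hV)
  | .ex x φ, n, hn, e, e', V, V', he, hV => by
      have ih := sat_iff c φ n (le_of_max_le_right hn)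
      show (∃ a : A, φ.Sat P R (Function.update e' x a) V') ↔
        ∃ t ∈ {t | ∃ a ∈ (Set.univ : Set A),
          t = φ.ty P R Set.univ c (Function.update e x (some a)) V}, φ.dec t
      have h : ∀ a, (φ.Sat P R (Function.update e' x a) V' ↔
          φ.dec (φ.ty P R Set.univ c (Function.update e x (some a)) V)) := by
        intro a
        refine ih _ _ V V' ?_ hV
        intro y hy
        by_cases hx : y = x
        · subst hx
          simp
        · simp only [Function.update_of_ne hx]
          exact he y hy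
      constructor
      · rintro ⟨a, ha⟩
        exact ⟨_, ⟨a, Set.mem_univ a, rfl⟩, (h a).1 ha⟩
      · rintro ⟨_, ⟨a, -, rfl⟩, ha⟩
        exact ⟨a, (h a).2 ha⟩
  | .exS Z φ, n, hn, e, e', V, V', he, hV => by
      have ih := sat_iff c φ n (le_of_max_le_right hn)
      show (∃ S : Set A, φ.Sat P R e' (Function.update V' Z S)) ↔
        ∃ t ∈ {t | ∃ S, S ⊆ (Set.univ : Set A) ∧
          t = φ.ty P R Set.univ c e (Function.update V Z S)}, φ.dec t
      have h : ∀ S : Set A, (φ.Sat P R e' (Function.update V' Z S) ↔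
          φ.dec (φ.ty P R Set.univ c e (Function.update V Z S))) := by
        intro S
        refine ih e e' _ _ he ?_
        intro y hy
        by_cases hx : y = Z
        · subst hx
          simp
        · simp only [Function.update_of_ne hx]
          exact hV y hy
      constructor
      · rintro ⟨S, hS⟩
        exact ⟨_, ⟨S, Set.subset_univ S, rfl⟩, (h S).1 hS⟩
      · rintro ⟨_, ⟨S, -, rfl⟩, hS⟩
        exact ⟨S, (h S).2 hS⟩

/-- the truth value of the closure -/
theorem dec_clo (c : A → Q) (φ : MS) : ∀ (n : ℕ) (e : ℕ → Option A) (V : ℕ → Set A),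
    ((φ.clo n).dec ((φ.clo n).ty P R Set.univ c e V) ↔ ∀ (e' : ℕ → Option A) (V' : ℕ → Set A),
      (∀ i, n ≤ i → e' i = e i ∧ V' i = V i) → (∀ i < n, ∃ a, e' i = some a) →
        φ.dec (φ.ty P R Set.univ c e' V'))
  | 0, e, V => by
      constructor
      · intro h e' V' h1 _
        have he : e' = e := funext fun i => (h1 i (Nat.zero_le i)).1
        have hV : V' = V := funext fun i => (h1 i (Nat.zero_le i)).2
        rw [he, hV]
        exact h
      · intro h
        exact h e V (fun _ _ => ⟨rfl, rfl⟩) fun i hi => absurd hi (Nat.not_lt_zero i)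
  | n + 1, e, V => by
      have ih := dec_clo c φ n
      show ¬ (∃ t ∈ {t | ∃ a ∈ (Set.univ : Set A), t = {u | ∃ S, S ⊆ (Set.univ : Set A) ∧
        u = (φ.clo n).ty P R Set.univ c (Function.update e n (some a)) (Function.update V n S)}},
        ∃ u ∈ t, ¬ (φ.clo n).dec u) ↔ _
      constructor
      · intro h e' V' h1 h2
        by_contra hc
        obtain ⟨a, ha⟩ := h2 n (Nat.lt_succ_self n)
        refine h ⟨_, ⟨a, Set.mem_univ a, rfl⟩, _, ⟨V' n, Set.subset_univ _, rfl⟩, fun hd => hc ?_⟩
        refine (ih _ _).1 hd e' V' ?_ fun i hi => h2 i (Nat.lt_succ_of_lt hi)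
        intro i hi
        rcases Nat.eq_or_lt_of_le hi with rfl | hi
        · simp [ha]
        · have hne : i ≠ n := Nat.ne_of_gt hi
          simp only [Function.update_of_ne hne]
          exact h1 i hi
      · rintro h ⟨_, ⟨a, -, rfl⟩, _, ⟨S, -, rfl⟩, hd⟩
        refine hd ((ih _ _).2 fun e' V' h1 h2 => h e' V' ?_ ?_)
        · intro i hi
          have hne : i ≠ n := Nat.ne_of_gt hi
          have := h1 i (Nat.le_of_succ_le hi)
          simpa only [Function.update_of_ne hne] using this
        · intro i hi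
          rcases Nat.eq_or_lt_of_le (Nat.le_of_lt_succ hi) with rfl | hi
          · exact ⟨a, by simpa using (h1 i le_rfl).1⟩
          · exact h2 i hi

/-- the closed formula, evaluated with the empty valuation -/
theorem dec_iff [Nonempty A] (c : A → Q) (φ : MS) :
    (φ.clo φ.vb).dec ((φ.clo φ.vb).ty P R Set.univ c (fun _ => none) (fun _ => ∅)) ↔
      ∀ (e : ℕ → A) (V : ℕ → Set A), φ.Sat P R e V := by
  rw [dec_clo]
  constructor
  · intro h e V
    refine (sat_iff c φ φ.vb le_rfl (fun i => if i < φ.vb then some (e i) else none) e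
      (fun i => if i < φ.vb then V i else ∅) V ?_ ?_).2 (h _ _ ?_ ?_)
    · intro x hx
      simp [hx]
    · intro x hx
      simp [hx]
    · intro i hi
      simp [Nat.not_lt.2 hi]
    · intro i hi
      exact ⟨e i, by simp [hi]⟩
  · intro h e' V' h1 h2
    have hch : ∀ i, ∃ a, i < φ.vb → e' i = some a := by
      intro i
      by_cases hi : i < φ.vb
      · obtain ⟨a, ha⟩ := h2 i hi
        exact ⟨a, fun _ => ha⟩
      · exact ⟨Classical.arbitrary A, fun h => absurd h hi⟩
    choose e he using hch
    exact (sat_iff c φ φ.vb le_rfl e' e V' V' (fun x hx => he x hx) fun _ _ => rfl).1 (h e V')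

end

end Pool.Agent.H69.VR
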