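import Pool.Agent.H69.VR.MSat
import Pool.Agent.H8.VR.Targets

/-!
# Counting monadic second-order logic over context-free classes: the grammar
-/

set_option autoImplicit false

namespace Pool.Agent.H69.VR

open Pool.Agent.H8.VR Classical

section
variable {N Q : Type}

/-- the list of all types -/
noncomputable def tl [Finite Q] (φ : MS) : List (φ.T Q) :=
  haveI := φ.finT Q
  (Set.finite_univ (α := φ.T Q)).toFinset.toList

theorem mem_tl [Finite Q] (φ : MS) (t : φ.T Q) : t ∈ tl (Q := Q) φ := by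
  unfold tl
  simp

/-- the type of a one-element structure -/
noncomputable def pt0 (φ : MS) (x : Pt N Q) : φ.T Q :=
  φ.pty x.un x.lp x.q (fun _ => False) (fun _ => False)

/-- the grammar which computes the types; the sort `none` is the sort `s₀` with an accepted type -/
noncomputable def ext [Finite Q] (G : Gram N Q) (s₀ : N) (φ : MS) :
    Gram (Option (N × φ.T Q)) Q where
  pts := G.pts.flatMap fun x =>
    [{ s := some (x.s, pt0 φ x), q := x.q, un := x.un, lp := x.lp }] ++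
      if x.s = s₀ ∧ φ.dec (pt0 φ x) then [{ s := none, q := x.q, un := x.un, lp := x.lp }] else []
  ops := G.ops.flatMap fun o => (tl φ).flatMap fun a => (tl φ).flatMap fun b =>
    [{ s := some (o.s, a), t := some (o.t, b), u := some (o.u, φ.comp o.l o.r o.f o.g a b),
       l := o.l, r := o.r, f := o.f, g := o.g, D := o.D }] ++
      if o.u = s₀ ∧ φ.dec (φ.comp o.l o.r o.f o.g a b) then
        [{ s := some (o.s, a), t := some (o.t, b), u := none,
           l := o.l, r := o.r, f := o.f, g := o.g, D := o.D }] else []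

variable {A : Type} {P : ℕ → A → Prop} {R : ℕ → A → A → Prop} {m : ℕ}

theorem gen_finite {G : Gram N Q} {s : N} {X : Set A} {c : A → Q} (h : G.Gen m P R s X c) :
    X.Finite := by
  induction h with
  | pt x hx a c hc hP hR => exact Set.finite_singleton a
  | op o ho X Y c c₁ c₂ h₁ h₂ hd hD hR hX hY ih1 ih2 => exact ih1.union ih2

/-- the root type -/
noncomputable def rty (φ : MS) (P : ℕ → A → Prop) (R : ℕ → A → A → Prop) (X : Set A) (c : A → Q) :
    φ.T Q := φ.ty P R X c (fun _ => none) (fun _ => ∅)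

theorem rty_pt {φ : MS} (hφ : φ.Below m) (x : Pt N Q) (a : A) (c : A → Q) (hc : c a = x.q)
    (hP : ∀ i < m, (P i a ↔ x.un i)) (hR : ∀ i < m, (R i a a ↔ x.lp i)) :
    rty φ P R {a} c = pt0 φ x := by
  unfold rty pt0
  rw [ty_pt hc hP hR φ hφ]
  simp

theorem mem_pts [Finite Q] {G : Gram N Q} {s₀ : N} {φ : MS} {y : Pt (Option (N × φ.T Q)) Q} :
    y ∈ (ext G s₀ φ).pts ↔ ∃ x ∈ G.pts, y.q = x.q ∧ y.un = x.un ∧ y.lp = x.lp ∧
      (y.s = some (x.s, pt0 φ x) ∨ (y.s = none ∧ x.s = s₀ ∧ φ.dec (pt0 φ x))) := by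
  unfold ext
  simp only [List.mem_flatMap]
  refine exists_congr fun x => and_congr_right fun _ => ?_
  rcases y with ⟨s, q, un, lp⟩
  by_cases h : x.s = s₀ ∧ φ.dec (pt0 φ x)
  · simp only [h, and_self, if_true, List.mem_append, List.mem_singleton, Pt.mk.injEq, and_true]
    tauto
  · simp only [h, if_false, List.append_nil, List.mem_singleton, Pt.mk.injEq, and_false, or_false]
    tauto

theorem mem_ops [Finite Q] {G : Gram N Q} {s₀ : N} {φ : MS} {y : Op (Option (N × φ.T Q)) Q} :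
    y ∈ (ext G s₀ φ).ops ↔ ∃ o ∈ G.ops, ∃ a b : φ.T Q, y.s = some (o.s, a) ∧
      y.t = some (o.t, b) ∧ y.l = o.l ∧ y.r = o.r ∧ y.f = o.f ∧ y.g = o.g ∧ y.D = o.D ∧
      (y.u = some (o.u, φ.comp o.l o.r o.f o.g a b) ∨
        (y.u = none ∧ o.u = s₀ ∧ φ.dec (φ.comp o.l o.r o.f o.g a b))) := by
  unfold ext
  simp only [List.mem_flatMap, mem_tl, true_and]
  refine exists_congr fun o => and_congr_right fun _ => exists_congr fun a =>
    exists_congr fun b => ?_
  rcases y with ⟨s, t, u, l, r, f, g, D⟩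
  by_cases h : o.u = s₀ ∧ φ.dec (φ.comp o.l o.r o.f o.g a b)
  · simp only [h, and_self, if_true, List.mem_append, List.mem_singleton, Op.mk.injEq, and_true]
    tauto
  · simp only [h, if_false, List.append_nil, List.mem_singleton, Op.mk.injEq, and_false, or_false]
    tauto

/-- what the extended grammar generates -/
def Good (G : Gram N Q) (s₀ : N) (φ : MS) (m : ℕ) (P : ℕ → A → Prop) (R : ℕ → A → A → Prop)
    (X : Set A) (c : A → Q) : Option (N × φ.T Q) → Prop
  | some p => G.Gen m P R p.1 X c ∧ rty φ P R X c = p.2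
  | none => G.Gen m P R s₀ X c ∧ φ.dec (rty φ P R X c)

theorem good_of_gen [Finite Q] {G : Gram N Q} {s₀ : N} {φ : MS} (hφ : φ.Below m)
    {σ : Option (N × φ.T Q)} {X : Set A} {c : A → Q} (h : (ext G s₀ φ).Gen m P R σ X c) :
    Good G s₀ φ m P R X c σ := by
  induction h with
  | pt y hy a c hc hP hR =>
    obtain ⟨x, hx, h1, h2, h3, h4⟩ := mem_pts.1 hy
    rw [h1] at hc
    rw [h2] at hP
    rw [h3] at hR
    have hg := Gram.Gen.pt (G := G) (m := m) (P := P) (R := R) x hx a c hc hP hR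
    have ht := rty_pt hφ x a c hc hP hR
    rcases h4 with h4 | ⟨h4, h5, h6⟩
    · rw [h4]
      exact ⟨hg, ht⟩
    · rw [h4]
      refine ⟨?_, ?_⟩
      · rw [← h5]
        exact hg
      · rw [ht]
        exact h6
  | op y hy X Y c c₁ c₂ h₁ h₂ hd hD hR hX hY ih1 ih2 =>
    obtain ⟨o, ho, a, b, k1, k2, k3, k4, k5, k6, k7, k8⟩ := mem_ops.1 hy
    rw [k1] at ih1
    rw [k2] at ih2
    obtain ⟨g1, t1⟩ := ih1
    obtain ⟨g2, t2⟩ := ih2
    rw [k3, k4] at hR
    rw [k5] at hX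
    rw [k6] at hY
    rw [k7] at hD
    have hg := Gram.Gen.op (G := G) o ho X Y c c₁ c₂ g1 g2 hd hD hR hX hY
    have ht : rty φ P R (X ∪ Y) c = φ.comp o.l o.r o.f o.g a b := by
      unfold rty
      rw [ty_union hd (gen_finite g1) (gen_finite g2) hR hX hY φ hφ]
      unfold rty at t1 t2
      rw [t1, t2]
    rcases k8 with k8 | ⟨k8, k9, k10⟩
    · rw [k8]
      exact ⟨hg, ht⟩
    · rw [k8]
      refine ⟨?_, ?_⟩
      · rw [← k9]
        exact hg
      · rw [ht]
        exact k10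

theorem gen_of_gen [Finite Q] {G : Gram N Q} {s₀ : N} {φ : MS} (hφ : φ.Below m) {s : N}
    {X : Set A} {c : A → Q} (h : G.Gen m P R s X c) :
    (ext G s₀ φ).Gen m P R (some (s, rty φ P R X c)) X c ∧
      (s = s₀ → φ.dec (rty φ P R X c) → (ext G s₀ φ).Gen m P R none X c) := by
  induction h with
  | pt x hx a c hc hP hR =>
    have ht := rty_pt hφ x a c hc hP hR
    refine ⟨?_, fun hs hd => ?_⟩
    · rw [ht]
      exact Gram.Gen.pt (G := ext G s₀ φ)
        { s := some (x.s, pt0 φ x), q := x.q, un := x.un, lp := x.lp }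
        (mem_pts.2 ⟨x, hx, rfl, rfl, rfl, Or.inl rfl⟩) a c hc hP hR
    · rw [ht] at hd
      exact Gram.Gen.pt (G := ext G s₀ φ)
        { s := none, q := x.q, un := x.un, lp := x.lp }
        (mem_pts.2 ⟨x, hx, rfl, rfl, rfl, Or.inr ⟨rfl, hs, hd⟩⟩) a c hc hP hR
  | op o ho X Y c c₁ c₂ h₁ h₂ hd hD hR hX hY ih1 ih2 =>
    have ht : rty φ P R (X ∪ Y) c =
        φ.comp o.l o.r o.f o.g (rty φ P R X c₁) (rty φ P R Y c₂) := by
      unfold rty
      rw [ty_union hd (gen_finite h₁) (gen_finite h₂) hR hX hY φ hφ]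
    refine ⟨?_, fun hs hdec => ?_⟩
    · rw [ht]
      exact Gram.Gen.op (G := ext G s₀ φ)
        { s := some (o.s, rty φ P R X c₁), t := some (o.t, rty φ P R Y c₂),
          u := some (o.u, φ.comp o.l o.r o.f o.g (rty φ P R X c₁) (rty φ P R Y c₂)),
          l := o.l, r := o.r, f := o.f, g := o.g, D := o.D }
        (mem_ops.2 ⟨o, ho, _, _, rfl, rfl, rfl, rfl, rfl, rfl, rfl, Or.inl rfl⟩)
        X Y c c₁ c₂ ih1.1 ih2.1 hd hD hR hX hY
    · rw [ht] at hdec
      exact Gram.Gen.op (G := ext G s₀ φ)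
        { s := some (o.s, rty φ P R X c₁), t := some (o.t, rty φ P R Y c₂), u := none,
          l := o.l, r := o.r, f := o.f, g := o.g, D := o.D }
        (mem_ops.2 ⟨o, ho, _, _, rfl, rfl, rfl, rfl, rfl, rfl, rfl, Or.inr ⟨rfl, hs, hdec⟩⟩)
        X Y c c₁ c₂ ih1.1 ih2.1 hd hD hR hX hY

end

/-- the spectrum with a sentence of counting monadic second-order logic is the spectrum of a grammar -/
theorem specM_eq (N Q : Type) [Finite Q] (G : Gram N Q) (m : ℕ) (s₀ : N) (Ψ : MS)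
    (hΨ : Ψ.Below m) (φ : C2) :
    specM G m s₀ Ψ φ = specG (ext G s₀ (Ψ.clo Ψ.vb)) m none φ := by
  have hb := MS.below_clo hΨ Ψ.vb
  ext n
  refine and_congr_right fun hn => exists_congr fun P => exists_congr fun R => ?_
  haveI : Nonempty (Fin n) := ⟨⟨0, hn⟩⟩
  constructor
  · rintro ⟨⟨c, hc⟩, hM, hφ⟩
    exact ⟨⟨c, (gen_of_gen hb hc).2 rfl ((dec_iff c Ψ).2 hM)⟩, hφ⟩
  · rintro ⟨⟨c, hc⟩, hφ⟩
    obtain ⟨h1, h2⟩ := good_of_gen hb hc
    exact ⟨⟨c, h1⟩, (dec_iff c Ψ).1 h2, hφ⟩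

open Pool.Agent.H69.Sp Pool.Agent.H69.Mt

/-- the theorem with counting monadic second-order logic -/
def T_VRM : Prop := ∀ (N Q : Type) [Finite N] [Finite Q] (G : Gram N Q),
  (∀ o ∈ G.ops, IsSpectrum o.D ∧ IsSpectrum (posCompl o.D)) → ∀ (m : ℕ) (s₀ : N) (Ψ : MS)
    (φ : C2), Ψ.Below m →
    IsSpectrum (specM G m s₀ Ψ φ) ∧ IsSpectrum (posCompl (specM G m s₀ Ψ φ))

theorem vrm (h : T_VR) : T_VRM := by
  intro N Q _ _ G hD m s₀ Ψ φ hΨ
  rw [specM_eq N Q G m s₀ Ψ hΨ φ]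
  haveI := MS.finT Q (Ψ.clo Ψ.vb)
  refine h (Option (N × (Ψ.clo Ψ.vb).T Q)) Q (ext G s₀ (Ψ.clo Ψ.vb)) ?_ m none φ
  intro y hy
  obtain ⟨o, ho, a, b, -, -, -, -, -, -, k, -⟩ := mem_ops.1 hy
  rw [k]
  exact hD o ho

end Pool.Agent.H69.VR
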