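import Pool.Agent.H8.VR.Defs

/-!
# Counting monadic second-order logic over context-free classes of structures
-/

set_option autoImplicit false

namespace Pool.Agent.H69.VR

open Pool.Agent.H8.VR

/-- Formulas of counting monadic second-order logic: the variables for elements, the variables for sets
and the relation symbols are indexed by numbers. -/
inductive MS : Type
  | un (i x : ℕ) : MS
  | bi (i x y : ℕ) : MS
  | eq (x y : ℕ) : MS
  | mem (x X : ℕ) : MS
  | mod (X q r : ℕ) : MS
  | neg (φ : MS) : MS
  | and (φ ψ : MS) : MS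
  | ex (x : ℕ) (φ : MS) : MS
  | exS (X : ℕ) (φ : MS) : MS

/-- Satisfaction in the structure with the unary relations `P i` and the binary relations `R i`;
`mod X q r` says that the number of the elements of the set `X` is congruent to `r` modulo `q + 1`,
`ex` is the quantifier for elements and `exS` the quantifier for sets. -/
def MS.Sat {A : Type} (P : ℕ → A → Prop) (R : ℕ → A → A → Prop) :
    MS → (ℕ → A) → (ℕ → Set A) → Prop
  | .un i x, e, _ => P i (e x)
  | .bi i x y, e, _ => R i (e x) (e y)
  | .eq x y, e, _ => e x = e y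
  | .mem x X, e, V => e x ∈ V X
  | .mod X q r, _, V => (V X).ncard ≡ r [MOD q + 1]
  | .neg φ, e, V => ¬ φ.Sat P R e V
  | .and φ ψ, e, V => φ.Sat P R e V ∧ ψ.Sat P R e V
  | .ex x φ, e, V => ∃ a : A, φ.Sat P R (Function.update e x a) V
  | .exS X φ, e, V => ∃ S : Set A, φ.Sat P R e (Function.update V X S)

/-- All relation symbols of the formula have an index below `m`. -/
def MS.Below (m : ℕ) : MS → Prop
  | .un i _ => i < m
  | .bi i _ _ => i < m
  | .eq _ _ => True
  | .mem _ _ => True
  | .mod _ _ _ => True
  | .neg φ => φ.Below m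
  | .and φ ψ => φ.Below m ∧ ψ.Below m
  | .ex _ φ => φ.Below m
  | .exS _ φ => φ.Below m

/-- The sizes of the finite models of `Ψ` and `φ` whose unary and binary relations with an index below
`m` form a structure generated by the grammar, of sort `s`; the other relations are arbitrary. -/
def specM {N Q : Type} (G : Gram N Q) (m : ℕ) (s : N) (Ψ : MS) (φ : C2) : Set ℕ :=
  {n | 0 < n ∧ ∃ (P : ℕ → Fin n → Prop) (R : ℕ → Fin n → Fin n → Prop),
    (∃ c, G.Gen m P R s Set.univ c) ∧ (∀ (e : ℕ → Fin n) (V : ℕ → Set (Fin n)), Ψ.Sat P R e V) ∧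
      ∀ v : Bool → Fin n, φ.Sat P R v}

end Pool.Agent.H69.VR
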