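import Pool.Agent.H69.VR.MTy

/-!
# Counting monadic second-order logic over context-free classes: composition
-/

set_option autoImplicit false

namespace Pool.Agent.H69.VR

open Pool.Agent.H8.VR Classical

section
variable {A Q : Type} {P : ℕ → A → Prop} {R : ℕ → A → A → Prop}

theorem cl_congr {X : Set A} {c c' : A → Q} (hc : ∀ a ∈ X, c a = c' a) {o o' : Option A}
    (ho : ∀ a ∈ X, (o = some a ↔ o' = some a)) : cl X c o = cl X c' o' := by
  unfold cl
  rcases o with _ | a
  · rcases o' with _ | b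
    · rfl
    · by_cases hb : b ∈ X
      · exact absurd ((ho b hb).2 rfl) (by simp)
      · simp [hb]
  · by_cases ha : a ∈ X
    · have := (ho a ha).1 rfl
      subst this
      simp [ha, hc a ha]
    · rcases o' with _ | b
      · simp [ha]
      · by_cases hb : b ∈ X
        · have h := (ho b hb).2 rfl
          simp only [Option.some.injEq] at h
          exact absurd (h ▸ hb) ha
        · simp [ha, hb]

theorem upd_some {X : Set A} {e e' : ℕ → Option A}
    (he : ∀ x, ∀ a ∈ X, (e x = some a ↔ e' x = some a)) (y : ℕ) (o : Option A) :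
    ∀ x, ∀ a ∈ X, (Function.update e y o x = some a ↔ Function.update e' y o x = some a) := by
  intro x a ha
  by_cases hx : x = y
  · subst hx
    simp
  · simp only [Function.update_of_ne hx]
    exact he x a ha

/-- the type depends only on the part of the valuation in `X` -/
theorem ty_congr {X : Set A} {c c' : A → Q} (hc : ∀ a ∈ X, c a = c' a) : ∀ (φ : MS)
    (e e' : ℕ → Option A) (V V' : ℕ → Set A),
    (∀ x, ∀ a ∈ X, (e x = some a ↔ e' x = some a)) → (∀ Z, ∀ a ∈ X, (a ∈ V Z ↔ a ∈ V' Z)) →
      φ.ty P R X c e V = φ.ty P R X c' e' V'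
  | .un i x, e, e', V, V', he, _ => by
      show (∃ a ∈ X, e x = some a ∧ P i a : Prop) = (∃ a ∈ X, e' x = some a ∧ P i a : Prop)
      refine propext (exists_congr fun a => and_congr_right fun ha => ?_)
      rw [he x a ha]
  | .bi i x y, e, e', V, V', he, _ => by
      show ((∃ a ∈ X, ∃ b ∈ X, e x = some a ∧ e y = some b ∧ R i a b : Prop),
        cl X c (e x), cl X c (e y)) = ((∃ a ∈ X, ∃ b ∈ X, e' x = some a ∧ e' y = some b ∧ R i a b
          : Prop), cl X c' (e' x), cl X c' (e' y))
      rw [cl_congr hc (he x), cl_congr hc (he y)]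
      refine congrArg₂ _ (propext (exists_congr fun a => and_congr_right fun ha =>
        exists_congr fun b => and_congr_right fun hb => ?_)) rfl
      rw [he x a ha, he y b hb]
  | .eq x y, e, e', V, V', he, _ => by
      show (∃ a ∈ X, e x = some a ∧ e y = some a : Prop) =
        (∃ a ∈ X, e' x = some a ∧ e' y = some a : Prop)
      refine propext (exists_congr fun a => and_congr_right fun ha => ?_)
      rw [he x a ha, he y a ha]
  | .mem x Z, e, e', V, V', he, hV => by
      show (∃ a ∈ X, e x = some a ∧ a ∈ V Z : Prop) = (∃ a ∈ X, e' x = some a ∧ a ∈ V' Z : Prop)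
      refine propext (exists_congr fun a => and_congr_right fun ha => ?_)
      rw [he x a ha, hV Z a ha]
  | .mod Z q _, e, e', V, V', he, hV => by
      show (((X ∩ V Z).ncard : ℕ) : ZMod (q + 1)) = (((X ∩ V' Z).ncard : ℕ) : ZMod (q + 1))
      have : X ∩ V Z = X ∩ V' Z := by
        ext a
        exact and_congr_right fun ha => hV Z a ha
      rw [this]
  | .neg φ, e, e', V, V', he, hV => ty_congr hc φ e e' V V' he hV
  | .and φ ψ, e, e', V, V', he, hV => by
      show (φ.ty P R X c e V, ψ.ty P R X c e V) = (φ.ty P R X c' e' V', ψ.ty P R X c' e' V')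
      rw [ty_congr hc φ e e' V V' he hV, ty_congr hc ψ e e' V V' he hV]
  | .ex x φ, e, e', V, V', he, hV => by
      show (({t | ∃ a ∈ X, t = φ.ty P R X c (Function.update e x (some a)) V},
        φ.ty P R X c (Function.update e x none) V) : Set (φ.T Q) × φ.T Q) =
        ({t | ∃ a ∈ X, t = φ.ty P R X c' (Function.update e' x (some a)) V'},
        φ.ty P R X c' (Function.update e' x none) V')
      rw [ty_congr hc φ _ _ V V' (upd_some he x none) hV]
      refine congrArg₂ _ (Set.ext fun t => exists_congr fun a => ?_) rfl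
      rw [ty_congr hc φ _ _ V V' (upd_some he x (some a)) hV]
  | .exS Z φ, e, e', V, V', he, hV => by
      show {t | ∃ S, S ⊆ X ∧ t = φ.ty P R X c e (Function.update V Z S)} =
        {t | ∃ S, S ⊆ X ∧ t = φ.ty P R X c' e' (Function.update V' Z S)}
      refine Set.ext fun t => exists_congr fun S => ?_
      rw [ty_congr hc φ e e' (Function.update V Z S) (Function.update V' Z S) he ?_]
      intro Z' a ha
      by_cases hx : Z' = Z
      · subst hx
        simp
      · simp only [Function.update_of_ne hx]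
        exact hV Z' a ha

theorem cl_union {X Y : Set A} {c c₁ c₂ : A → Q} {f g : Q → Q} (hd : Disjoint X Y)
    (hX : ∀ a ∈ X, c a = f (c₁ a)) (hY : ∀ b ∈ Y, c b = g (c₂ b)) (o : Option A) :
    cl (X ∪ Y) c o = ((cl X c₁ o).map f).or ((cl Y c₂ o).map g) := by
  unfold cl
  rcases o with _ | a
  · rfl
  · by_cases ha : a ∈ X
    · have hb : a ∉ Y := fun h => Set.disjoint_left.mp hd ha h
      simp [ha, hX a ha]
    · by_cases hb : a ∈ Y
      · simp [ha, hb, hY a hb]
      · simp [ha, hb]

theorem cl_eq_some {X : Set A} {c : A → Q} {o : Option A} {q : Q} :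
    cl X c o = some q ↔ ∃ a ∈ X, o = some a ∧ c a = q := by
  unfold cl
  rcases o with _ | a
  · simp
  · by_cases ha : a ∈ X
    · simp [ha]
    · simp only [Option.bind_some, ha, if_false, reduceCtorEq, Option.some.injEq, false_iff]
      rintro ⟨b, hb, rfl, -⟩
      exact ha hb

/-- the type of a disjoint union -/
theorem ty_union {X Y : Set A} {c c₁ c₂ : A → Q} {f g : Q → Q} {l r : ℕ → Q → Q → Prop} {m : ℕ}
    (hd : Disjoint X Y) (hXf : X.Finite) (hYf : Y.Finite)
    (hR : ∀ a ∈ X, ∀ b ∈ Y, ∀ i < m,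
      (R i a b ↔ l i (c₁ a) (c₂ b)) ∧ (R i b a ↔ r i (c₁ a) (c₂ b)))
    (hX : ∀ a ∈ X, c a = f (c₁ a)) (hY : ∀ b ∈ Y, c b = g (c₂ b)) : ∀ (φ : MS), φ.Below m →
    ∀ (e : ℕ → Option A) (V : ℕ → Set A), φ.ty P R (X ∪ Y) c e V =
      φ.comp l r f g (φ.ty P R X c₁ e V) (φ.ty P R Y c₂ e V)
  | .un i x, _, e, V => by
      show (∃ a ∈ X ∪ Y, e x = some a ∧ P i a : Prop) = ((∃ a ∈ X, e x = some a ∧ P i a) ∨
        ∃ a ∈ Y, e x = some a ∧ P i a : Prop)
      refine propext ?_
      simp only [Set.mem_union, or_and_right, exists_or]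
  | .bi i x y, hm, e, V => by
      show ((∃ a ∈ X ∪ Y, ∃ b ∈ X ∪ Y, e x = some a ∧ e y = some b ∧ R i a b : Prop),
        cl (X ∪ Y) c (e x), cl (X ∪ Y) c (e y)) =
        (((∃ a ∈ X, ∃ b ∈ X, e x = some a ∧ e y = some b ∧ R i a b) ∨
          (∃ a ∈ Y, ∃ b ∈ Y, e x = some a ∧ e y = some b ∧ R i a b) ∨
          (∃ p q, cl X c₁ (e x) = some p ∧ cl Y c₂ (e y) = some q ∧ l i p q) ∨
          ∃ p q, cl X c₁ (e y) = some p ∧ cl Y c₂ (e x) = some q ∧ r i p q : Prop),
        ((cl X c₁ (e x)).map f).or ((cl Y c₂ (e x)).map g),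
        ((cl X c₁ (e y)).map f).or ((cl Y c₂ (e y)).map g))
      rw [cl_union hd hX hY, cl_union hd hX hY]
      refine congrArg₂ _ (propext ?_) rfl
      constructor
      · rintro ⟨a, ha | ha, b, hb | hb, h1, h2, h3⟩
        · exact Or.inl ⟨a, ha, b, hb, h1, h2, h3⟩
        · exact Or.inr (Or.inr (Or.inl ⟨c₁ a, c₂ b, cl_eq_some.2 ⟨a, ha, h1, rfl⟩,
            cl_eq_some.2 ⟨b, hb, h2, rfl⟩, (hR a ha b hb i hm).1.1 h3⟩))
        · exact Or.inr (Or.inr (Or.inr ⟨c₁ b, c₂ a, cl_eq_some.2 ⟨b, hb, h2, rfl⟩,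
            cl_eq_some.2 ⟨a, ha, h1, rfl⟩, (hR b hb a ha i hm).2.1 h3⟩))
        · exact Or.inr (Or.inl ⟨a, ha, b, hb, h1, h2, h3⟩)
      · rintro (⟨a, ha, b, hb, h1, h2, h3⟩ | ⟨a, ha, b, hb, h1, h2, h3⟩ | ⟨p, q, h1, h2, h3⟩ |
          ⟨p, q, h1, h2, h3⟩)
        · exact ⟨a, Or.inl ha, b, Or.inl hb, h1, h2, h3⟩
        · exact ⟨a, Or.inr ha, b, Or.inr hb, h1, h2, h3⟩
        · obtain ⟨a, ha, h4, rfl⟩ := cl_eq_some.1 h1
          obtain ⟨b, hb, h5, rfl⟩ := cl_eq_some.1 h2
          exact ⟨a, Or.inl ha, b, Or.inr hb, h4, h5, (hR a ha b hb i hm).1.2 h3⟩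
        · obtain ⟨b, hb, h4, rfl⟩ := cl_eq_some.1 h1
          obtain ⟨a, ha, h5, rfl⟩ := cl_eq_some.1 h2
          exact ⟨a, Or.inr ha, b, Or.inl hb, h5, h4, (hR b hb a ha i hm).2.2 h3⟩
  | .eq x y, _, e, V => by
      show (∃ a ∈ X ∪ Y, e x = some a ∧ e y = some a : Prop) =
        ((∃ a ∈ X, e x = some a ∧ e y = some a) ∨ ∃ a ∈ Y, e x = some a ∧ e y = some a : Prop)
      refine propext ?_
      simp only [Set.mem_union, or_and_right, exists_or]
  | .mem x Z, _, e, V => by
      show (∃ a ∈ X ∪ Y, e x = some a ∧ a ∈ V Z : Prop) =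
        ((∃ a ∈ X, e x = some a ∧ a ∈ V Z) ∨ ∃ a ∈ Y, e x = some a ∧ a ∈ V Z : Prop)
      refine propext ?_
      simp only [Set.mem_union, or_and_right, exists_or]
  | .mod Z q _, _, e, V => by
      show (((X ∪ Y) ∩ V Z).ncard : ZMod (q + 1)) =
        ((X ∩ V Z).ncard : ZMod (q + 1)) + ((Y ∩ V Z).ncard : ZMod (q + 1))
      rw [Set.union_inter_distrib_right, Set.ncard_union_eq (hd.mono Set.inter_subset_left
        Set.inter_subset_left) (hXf.inter_of_left _) (hYf.inter_of_left _), Nat.cast_add]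
  | .neg φ, hm, e, V => ty_union hd hXf hYf hR hX hY φ hm e V
  | .and φ ψ, hm, e, V => by
      show (φ.ty P R (X ∪ Y) c e V, ψ.ty P R (X ∪ Y) c e V) =
        (φ.comp l r f g (φ.ty P R X c₁ e V) (φ.ty P R Y c₂ e V),
          ψ.comp l r f g (ψ.ty P R X c₁ e V) (ψ.ty P R Y c₂ e V))
      rw [ty_union hd hXf hYf hR hX hY φ hm.1 e V, ty_union hd hXf hYf hR hX hY ψ hm.2 e V]
  | .ex x φ, hm, e, V => by
      have ih := ty_union hd hXf hYf hR hX hY φ hm
      show (({t | ∃ a ∈ X ∪ Y, t = φ.ty P R (X ∪ Y) c (Function.update e x (some a)) V},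
        φ.ty P R (X ∪ Y) c (Function.update e x none) V) : Set (φ.T Q) × φ.T Q) =
        ({u | (∃ v ∈ {t | ∃ a ∈ X, t = φ.ty P R X c₁ (Function.update e x (some a)) V},
            u = φ.comp l r f g v (φ.ty P R Y c₂ (Function.update e x none) V)) ∨
          ∃ v ∈ {t | ∃ a ∈ Y, t = φ.ty P R Y c₂ (Function.update e x (some a)) V},
            u = φ.comp l r f g (φ.ty P R X c₁ (Function.update e x none) V) v},
          φ.comp l r f g (φ.ty P R X c₁ (Function.update e x none) V)
            (φ.ty P R Y c₂ (Function.update e x none) V))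
      rw [ih (Function.update e x none) V]
      refine congrArg₂ _ (Set.ext fun u => ?_) rfl
      have hx : ∀ (B : Set A) (a : A), a ∉ B → ∀ y, ∀ b ∈ B,
          (Function.update e x (some a) y = some b ↔ Function.update e x none y = some b) := by
        intro B a ha y b hb
        by_cases hy : y = x
        · subst hy
          simp only [Function.update_self, Option.some.injEq, reduceCtorEq, iff_false]
          rintro rfl
          exact ha hb
        · simp only [Function.update_of_ne hy]
      have h1 : ∀ a ∈ X, φ.ty P R Y c₂ (Function.update e x (some a)) V =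
          φ.ty P R Y c₂ (Function.update e x none) V := fun a ha =>
        ty_congr (fun _ _ => rfl) φ _ _ V V (hx Y a fun h => Set.disjoint_left.mp hd ha h)
          fun _ _ _ => Iff.rfl
      have h2 : ∀ a ∈ Y, φ.ty P R X c₁ (Function.update e x (some a)) V =
          φ.ty P R X c₁ (Function.update e x none) V := fun a ha =>
        ty_congr (fun _ _ => rfl) φ _ _ V V (hx X a fun h => Set.disjoint_left.mp hd h ha)
          fun _ _ _ => Iff.rfl
      constructor
      · rintro ⟨a, ha | ha, rfl⟩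
        · exact Or.inl ⟨_, ⟨a, ha, rfl⟩, by rw [ih, h1 a ha]⟩
        · exact Or.inr ⟨_, ⟨a, ha, rfl⟩, by rw [ih, h2 a ha]⟩
      · rintro (⟨_, ⟨a, ha, rfl⟩, rfl⟩ | ⟨_, ⟨a, ha, rfl⟩, rfl⟩)
        · exact ⟨a, Or.inl ha, by rw [ih, h1 a ha]⟩
        · exact ⟨a, Or.inr ha, by rw [ih, h2 a ha]⟩
  | .exS Z φ, hm, e, V => by
      have ih := ty_union hd hXf hYf hR hX hY φ hm
      show {t | ∃ S, S ⊆ X ∪ Y ∧ t = φ.ty P R (X ∪ Y) c e (Function.update V Z S)} =
        {u | ∃ v ∈ {t | ∃ S, S ⊆ X ∧ t = φ.ty P R X c₁ e (Function.update V Z S)},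
          ∃ w ∈ {t | ∃ S, S ⊆ Y ∧ t = φ.ty P R Y c₂ e (Function.update V Z S)},
            u = φ.comp l r f g v w}
      have hl : ∀ (B : Set A) (d : A → Q) (S S' : Set A), (∀ a ∈ B, (a ∈ S ↔ a ∈ S')) →
          φ.ty P R B d e (Function.update V Z S) = φ.ty P R B d e (Function.update V Z S') := by
        intro B d S S' h
        refine ty_congr (fun _ _ => rfl) φ _ _ _ _ (fun _ _ _ => Iff.rfl) ?_
        intro Z' a ha
        by_cases hz : Z' = Z
        · subst hz
          simp only [Function.update_self]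
          exact h a ha
        · simp only [Function.update_of_ne hz]
      refine Set.ext fun u => ?_
      constructor
      · rintro ⟨S, hS, rfl⟩
        refine ⟨_, ⟨S ∩ X, Set.inter_subset_right, rfl⟩, _, ⟨S ∩ Y, Set.inter_subset_right, rfl⟩, ?_⟩
        rw [ih, hl X c₁ (S ∩ X) S fun a ha => ⟨fun h => h.1, fun h => ⟨h, ha⟩⟩,
          hl Y c₂ (S ∩ Y) S fun a ha => ⟨fun h => h.1, fun h => ⟨h, ha⟩⟩]
      · rintro ⟨_, ⟨S, hS, rfl⟩, _, ⟨S', hS', rfl⟩, rfl⟩
        refine ⟨S ∪ S', Set.union_subset_union hS hS', ?_⟩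
        rw [ih, hl X c₁ (S ∪ S') S fun a ha => ⟨fun h => h.resolve_right fun h' =>
            Set.disjoint_left.mp hd ha (hS' h'), fun h => Or.inl h⟩,
          hl Y c₂ (S ∪ S') S' fun a ha => ⟨fun h => h.resolve_left fun h' =>
            Set.disjoint_left.mp hd (hS h') ha, fun h => Or.inr h⟩]

/-- the type of a structure with one element -/
theorem ty_pt {a : A} {c : A → Q} {q : Q} {U L : ℕ → Prop} {m : ℕ} (hq : c a = q)
    (hU : ∀ i < m, (P i a ↔ U i)) (hL : ∀ i < m, (R i a a ↔ L i)) : ∀ (φ : MS), φ.Below m →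
    ∀ (e : ℕ → Option A) (V : ℕ → Set A), φ.ty P R {a} c e V =
      φ.pty U L q (fun x => e x = some a) (fun Z => a ∈ V Z)
  | .un i x, hm, e, V => by
      show (∃ b ∈ ({a} : Set A), e x = some b ∧ P i b : Prop) = (e x = some a ∧ U i : Prop)
      refine propext ?_
      simp only [Set.mem_singleton_iff, exists_eq_left, hU i hm]
  | .bi i x y, hm, e, V => by
      show ((∃ b ∈ ({a} : Set A), ∃ d ∈ ({a} : Set A), e x = some b ∧ e y = some d ∧ R i b d :
        Prop), cl {a} c (e x), cl {a} c (e y)) = ((e x = some a ∧ e y = some a ∧ L i : Prop),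
        oq (e x = some a) q, oq (e y = some a) q)
      have h : ∀ o : Option A, cl {a} c o = oq (o = some a) q := by
        intro o
        unfold oq
        rcases o with _ | b
        · simp [cl]
        · by_cases hb : b = a
          · subst hb
            simp [cl, hq]
          · simp [cl, hb]
      rw [h, h]
      refine congrArg₂ _ (propext ?_) rfl
      simp only [Set.mem_singleton_iff, exists_eq_left, hL i hm]
  | .eq x y, _, e, V => by
      show (∃ b ∈ ({a} : Set A), e x = some b ∧ e y = some b : Prop) =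
        (e x = some a ∧ e y = some a : Prop)
      refine propext ?_
      simp only [Set.mem_singleton_iff, exists_eq_left]
  | .mem x Z, _, e, V => by
      show (∃ b ∈ ({a} : Set A), e x = some b ∧ b ∈ V Z : Prop) = (e x = some a ∧ a ∈ V Z : Prop)
      refine propext ?_
      simp only [Set.mem_singleton_iff, exists_eq_left]
  | .mod Z q' _, _, e, V => by
      show ((({a} ∩ V Z : Set A).ncard : ℕ) : ZMod (q' + 1)) =
        ((oz (a ∈ V Z) : ℕ) : ZMod (q' + 1))
      unfold oz
      by_cases h : a ∈ V Z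
      · rw [if_pos h, Set.singleton_inter_of_mem h, Set.ncard_singleton]
      · rw [if_neg h, Set.singleton_inter_eq_empty.2 h, Set.ncard_empty]
  | .neg φ, hm, e, V => ty_pt hq hU hL φ hm e V
  | .and φ ψ, hm, e, V => by
      show (φ.ty P R {a} c e V, ψ.ty P R {a} c e V) = (φ.pty U L q (fun x => e x = some a)
        (fun Z => a ∈ V Z), ψ.pty U L q (fun x => e x = some a) (fun Z => a ∈ V Z))
      rw [ty_pt hq hU hL φ hm.1 e V, ty_pt hq hU hL ψ hm.2 e V]
  | .ex x φ, hm, e, V => by
      have ih := ty_pt hq hU hL φ hm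
      show (({t | ∃ b ∈ ({a} : Set A), t = φ.ty P R {a} c (Function.update e x (some b)) V},
        φ.ty P R {a} c (Function.update e x none) V) : Set (φ.T Q) × φ.T Q) =
        ({φ.pty U L q (Function.update (fun x => e x = some a) x True) (fun Z => a ∈ V Z)},
          φ.pty U L q (Function.update (fun x => e x = some a) x False) (fun Z => a ∈ V Z))
      have h : ∀ (o : Option A), (fun y => Function.update e x o y = some a) =
          Function.update (fun y => e y = some a) x (o = some a) := by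
        intro o
        funext y
        by_cases hy : y = x
        · subst hy
          simp
        · simp only [Function.update_of_ne hy]
      rw [ih, h none]
      refine congrArg₂ _ (Set.ext fun t => ?_) (by simp)
      simp only [Set.mem_singleton_iff, exists_eq_left, Set.mem_ofPred_eq]
      rw [ih, h (some a)]
      simp
  | .exS Z φ, hm, e, V => by
      have ih := ty_pt hq hU hL φ hm
      show {t | ∃ S, S ⊆ ({a} : Set A) ∧ t = φ.ty P R {a} c e (Function.update V Z S)} =
        {φ.pty U L q (fun x => e x = some a) (Function.update (fun Z => a ∈ V Z) Z False),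
          φ.pty U L q (fun x => e x = some a) (Function.update (fun Z => a ∈ V Z) Z True)}
      have h : ∀ (S : Set A), (fun Y => a ∈ Function.update V Z S Y) =
          Function.update (fun Y => a ∈ V Y) Z (a ∈ S) := by
        intro S
        funext y
        by_cases hy : y = Z
        · subst hy
          simp
        · simp only [Function.update_of_ne hy]
      refine Set.ext fun t => ?_
      simp only [Set.mem_ofPred_eq, Set.mem_insert_iff, Set.mem_singleton_iff,
        Set.subset_singleton_iff_eq]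
      constructor
      · rintro ⟨S, rfl | rfl, rfl⟩
        · left
          rw [ih, h]
          simp
        · right
          rw [ih, h]
          simp
      · rintro (rfl | rfl)
        · refine ⟨∅, Or.inl rfl, ?_⟩
          rw [ih, h]
          simp
        · refine ⟨{a}, Or.inr rfl, ?_⟩
          rw [ih, h]
          simp

end

end Pool.Agent.H69.VR
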