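import Pool.Agent.H69.VR.MDefs

/-!
# Counting monadic second-order logic over context-free classes: types
-/

set_option autoImplicit false

namespace Pool.Agent.H69.VR

open Pool.Agent.H8.VR Classical

/-- the types of a formula -/
def MS.T (Q : Type) : MS → Type
  | .un _ _ => Prop
  | .bi _ _ _ => Prop × Option Q × Option Q
  | .eq _ _ => Prop
  | .mem _ _ => Prop
  | .mod _ q _ => ZMod (q + 1)
  | .neg φ => φ.T Q
  | .and φ ψ => φ.T Q × ψ.T Q
  | .ex _ φ => Set (φ.T Q) × φ.T Q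
  | .exS _ φ => Set (φ.T Q)

theorem MS.finT (Q : Type) [Finite Q] : ∀ φ : MS, Finite (φ.T Q)
  | .un _ _ => inferInstanceAs (Finite Prop)
  | .bi _ _ _ => inferInstanceAs (Finite (Prop × Option Q × Option Q))
  | .eq _ _ => inferInstanceAs (Finite Prop)
  | .mem _ _ => inferInstanceAs (Finite Prop)
  | .mod _ q _ => inferInstanceAs (Finite (ZMod (q + 1)))
  | .neg φ => φ.finT Q
  | .and φ ψ => by
      have := φ.finT Q
      have := ψ.finT Q
      exact inferInstanceAs (Finite (φ.T Q × ψ.T Q))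
  | .ex _ φ => by
      have := φ.finT Q
      exact inferInstanceAs (Finite (Set (φ.T Q) × φ.T Q))
  | .exS _ φ => by
      have := φ.finT Q
      exact inferInstanceAs (Finite (Set (φ.T Q)))

section
variable {A Q : Type}

/-- the colour of the value of a variable, if it is in `X` -/
noncomputable def cl (X : Set A) (c : A → Q) (o : Option A) : Option Q :=
  o.bind fun a => if a ∈ X then some (c a) else none

/-- the colour `q`, if `p` holds -/
noncomputable def oq (p : Prop) (q : Q) : Option Q := if p then some q else none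

/-- one or zero -/
noncomputable def oz (p : Prop) : ℕ := if p then 1 else 0

/-- the type of a valuation in a part of a structure -/
noncomputable def MS.ty (P : ℕ → A → Prop) (R : ℕ → A → A → Prop) (X : Set A) (c : A → Q) :
    (φ : MS) → (ℕ → Option A) → (ℕ → Set A) → φ.T Q
  | .un i x, e, _ => (∃ a ∈ X, e x = some a ∧ P i a : Prop)
  | .bi i x y, e, _ => ((∃ a ∈ X, ∃ b ∈ X, e x = some a ∧ e y = some b ∧ R i a b : Prop),
      cl X c (e x), cl X c (e y))
  | .eq x y, e, _ => (∃ a ∈ X, e x = some a ∧ e y = some a : Prop)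
  | .mem x Z, e, V => (∃ a ∈ X, e x = some a ∧ a ∈ V Z : Prop)
  | .mod Z q _, _, V => (((X ∩ V Z).ncard : ℕ) : ZMod (q + 1))
  | .neg φ, e, V => φ.ty P R X c e V
  | .and φ ψ, e, V => (φ.ty P R X c e V, ψ.ty P R X c e V)
  | .ex x φ, e, V => ({t | ∃ a ∈ X, t = φ.ty P R X c (Function.update e x (some a)) V},
      φ.ty P R X c (Function.update e x none) V)
  | .exS Z φ, e, V => {t | ∃ S, S ⊆ X ∧ t = φ.ty P R X c e (Function.update V Z S)}

/-- the truth value of a type -/
def MS.dec : (φ : MS) → φ.T Q → Prop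
  | .un _ _, (s : Prop) => s
  | .bi _ _ _, (s : Prop × Option Q × Option Q) => s.1
  | .eq _ _, (s : Prop) => s
  | .mem _ _, (s : Prop) => s
  | .mod _ q r, (s : ZMod (q + 1)) => s = (r : ZMod (q + 1))
  | .neg φ, s => ¬ φ.dec s
  | .and φ ψ, (s : φ.T Q × ψ.T Q) => φ.dec s.1 ∧ ψ.dec s.2
  | .ex _ φ, (s : Set (φ.T Q) × φ.T Q) => ∃ t ∈ s.1, φ.dec t
  | .exS _ φ, (s : Set (φ.T Q)) => ∃ t ∈ s, φ.dec t

/-- the type of a disjoint union with cross relations -/
noncomputable def MS.comp (l r : ℕ → Q → Q → Prop) (f g : Q → Q) :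
    (φ : MS) → φ.T Q → φ.T Q → φ.T Q
  | .un _ _, (s : Prop), (t : Prop) => (s ∨ t : Prop)
  | .bi i _ _, (s : Prop × Option Q × Option Q), (t : Prop × Option Q × Option Q) =>
      ((s.1 ∨ t.1 ∨ (∃ p q, s.2.1 = some p ∧ t.2.2 = some q ∧ l i p q) ∨
        ∃ p q, s.2.2 = some p ∧ t.2.1 = some q ∧ r i p q : Prop),
        (s.2.1.map f).or (t.2.1.map g), (s.2.2.map f).or (t.2.2.map g))
  | .eq _ _, (s : Prop), (t : Prop) => (s ∨ t : Prop)
  | .mem _ _, (s : Prop), (t : Prop) => (s ∨ t : Prop)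
  | .mod _ q _, (s : ZMod (q + 1)), (t : ZMod (q + 1)) => (s + t : ZMod (q + 1))
  | .neg φ, s, t => φ.comp l r f g s t
  | .and φ ψ, (s : φ.T Q × ψ.T Q), (t : φ.T Q × ψ.T Q) =>
      (φ.comp l r f g s.1 t.1, ψ.comp l r f g s.2 t.2)
  | .ex _ φ, (s : Set (φ.T Q) × φ.T Q), (t : Set (φ.T Q) × φ.T Q) =>
      ({u | (∃ v ∈ s.1, u = φ.comp l r f g v t.2) ∨ ∃ v ∈ t.1, u = φ.comp l r f g s.2 v},
        φ.comp l r f g s.2 t.2)
  | .exS _ φ, (s : Set (φ.T Q)), (t : Set (φ.T Q)) =>
      {u | ∃ v ∈ s, ∃ w ∈ t, u = φ.comp l r f g v w}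

/-- the type of a structure with one element: `E x` says that the variable `x` has this element as its
value, `W Z` that it belongs to the set `Z` -/
noncomputable def MS.pty (U L : ℕ → Prop) (q : Q) :
    (φ : MS) → (ℕ → Prop) → (ℕ → Prop) → φ.T Q
  | .un i x, E, _ => (E x ∧ U i : Prop)
  | .bi i x y, E, _ => ((E x ∧ E y ∧ L i : Prop), oq (E x) q, oq (E y) q)
  | .eq x y, E, _ => (E x ∧ E y : Prop)
  | .mem x Z, E, W => (E x ∧ W Z : Prop)
  | .mod Z q' _, _, W => ((oz (W Z) : ℕ) : ZMod (q' + 1))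
  | .neg φ, E, W => φ.pty U L q E W
  | .and φ ψ, E, W => (φ.pty U L q E W, ψ.pty U L q E W)
  | .ex x φ, E, W => ({φ.pty U L q (Function.update E x True) W},
      φ.pty U L q (Function.update E x False) W)
  | .exS Z φ, E, W => ({φ.pty U L q E (Function.update W Z False),
      φ.pty U L q E (Function.update W Z True)} : Set (φ.T Q))

end

end Pool.Agent.H69.VR
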